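import Pool.Agent.Results.MP_169869_co.GeometricMeans
import Pool.Agent.X163.Ak.Szem

/-! # Almost all slices in the arithmetic Kakeya conjecture

Let `A` be a finite set of pairs (start `a`, common difference `d`), let `D` be the set of the
differences and `B_j` the slice of the `a + j d`. If for some exponent `c` and some finite set of
slopes the inequality `|D| ≤ max |B| ^ c` holds for all `A`, then, with the same exponent `c`, the
inequality `|D| ≤ |B_j| ^ c` holds for almost all `j` in every sufficiently long interval, uniformly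
in `A`. So the arithmetic Kakeya conjecture (one large slice among finitely many) is equivalent to
the statement that almost all slices are large.

Proof. The indices of the small slices contain no homothetic copy of a finite pattern which only
depends on `c`; now Szemerédi's theorem (from the density Hales-Jewett theorem
`Pool.Agent.H602R3.DHJ.dhj`). -/

set_option autoImplicit false

open Finset

namespace Pool.Agent.Results.MP_169869_co.AlmostAllSlices

open Pool.Agent.Results.MP_169869_co.GeometricMeans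

/-- In every sufficiently long interval all but a small proportion of the indices `j` satisfy
`|D| ≤ |B_j| ^ c`, uniformly over all finite nonempty sets `A`. -/
def AlmostAll (c : ℝ) : Prop :=
  ∀ θ : ℝ, 0 < θ → ∃ k₀ : ℕ, ∀ k : ℕ, k₀ ≤ k → ∀ (s : ℤ) (A : Finset (ℤ × ℤ)), A.Nonempty →
    (((Ico s (s + k)).filter
      (fun j => ¬ ((diffs A).card : ℝ) ≤ ((slice j A).card : ℝ) ^ c)).card : ℝ) ≤ θ * k

namespace Aux2

open Pool.Agent.Results.MP_169869_co.GeometricMeans.Aux

theorem almostAll_of_max {S : Finset (Option ℚ)} (hS : some (-1) ∉ S) {c : ℝ}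
    (h : MaxBound S c) : AlmostAll c := by
  classical
  intro θ hθ
  have hSne : S.Nonempty := by
    obtain ⟨r, hr, -⟩ := h {(0, 0)} (singleton_nonempty _)
    exact ⟨r, hr⟩
  obtain ⟨M, hM, hn⟩ := exists_scale S
  choose! n hn using hn
  obtain ⟨q, hq⟩ : ∃ q, S.card = q + 1 := ⟨S.card - 1, by have := hSne.card_pos; omega⟩
  obtain ⟨e⟩ : Nonempty (↥S ≃ Fin (q + 1)) := ⟨S.equivFinOfCardEq hq⟩
  obtain ⟨k₀, hk₀⟩ := Pool.Agent.X163.Ak.szem q (fun a => n (e.symm a).1) θ hθ
  refine ⟨k₀, fun k hk s A hA => ?_⟩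
  by_contra hlt
  push Not at hlt
  obtain ⟨x, m, hm, hx⟩ := hk₀ k hk s _ (filter_subset _ _) hlt
  have hmM : m * M ≠ 0 := mul_ne_zero (by omega) hM
  obtain ⟨r, hr, h1⟩ := h (move x (m * M) A) (move_nonempty hA _ _)
  have hr' : r ≠ some (-1) := fun h => hS (h ▸ hr)
  have hn' : tau r * ((m * M : ℤ) : ℚ) = ((m * n r : ℤ) : ℚ) := by
    have := hn r hr
    push_cast
    rw [← this]
    ring
  rw [card_move_neg hmM, card_move x A hr' hn'] at h1
  have h2 := hx (e ⟨r, hr⟩)
  simp only [Equiv.symm_apply_apply, mem_filter] at h2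
  exact absurd h1 (not_le.2 (by simpa using h2.2))

theorem slices_of_almostAll {c : ℝ} (h : AlmostAll c) :
    ∃ k : ℕ, ∀ A : Finset (ℤ × ℤ), A.Nonempty →
      ∃ j < k, ((diffs A).card : ℝ) ≤ ((slice (j : ℕ) A).card : ℝ) ^ c := by
  obtain ⟨k₀, hk⟩ := h (1 / 2) (by norm_num)
  refine ⟨k₀ + 1, fun A hA => ?_⟩
  by_contra hno
  push Not at hno
  have h1 := hk (k₀ + 1) (by omega) 0 A hA
  have h2 : (Ico (0 : ℤ) (0 + ((k₀ + 1 : ℕ) : ℤ))).filter
      (fun j => ¬ ((diffs A).card : ℝ) ≤ ((slice j A).card : ℝ) ^ c) =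
      Ico (0 : ℤ) (0 + ((k₀ + 1 : ℕ) : ℤ)) := by
    refine filter_true_of_mem fun j hj => ?_
    rw [mem_Ico] at hj
    have h3 := hno j.toNat (by omega)
    have h4 : ((j.toNat : ℕ) : ℤ) = j := Int.toNat_of_nonneg hj.1
    rw [h4] at h3
    exact not_le.2 h3
  rw [h2, Int.card_Ico] at h1
  have h5 : (0 + ((k₀ + 1 : ℕ) : ℤ) - 0).toNat = k₀ + 1 := by omega
  rw [h5] at h1
  push_cast at h1
  have : (0 : ℝ) ≤ k₀ := Nat.cast_nonneg _
  linarith

theorem max_of_slices {c : ℝ} {k : ℕ} (h : ∀ A : Finset (ℤ × ℤ), A.Nonempty →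
      ∃ j < k, ((diffs A).card : ℝ) ≤ ((slice (j : ℕ) A).card : ℝ) ^ c) :
    MaxBound ((range k).image slope) c := by
  intro A hA
  obtain ⟨j, hj, h1⟩ := h (back A) (hA.image _)
  refine ⟨slope j, mem_image_of_mem _ (mem_range.2 hj), ?_⟩
  rwa [card_diffs_back, card_slice_back] at h1

theorem slope_notMem (k : ℕ) : some (-1) ∉ (range k).image slope := by
  rw [mem_image]
  rintro ⟨j, -, hj⟩
  exact slope_ne j hj

end Aux2

open Aux2 Pool.Agent.Results.MP_169869_co.GeometricMeans.Aux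

theorem result :
    (∀ c : ℝ, List.TFAE [
      ∃ S : Finset (Option ℚ), some (-1) ∉ S ∧ MaxBound S c,
      ∃ k : ℕ, ∀ A : Finset (ℤ × ℤ), A.Nonempty →
        ∃ j < k, ((diffs A).card : ℝ) ≤ ((slice (j : ℕ) A).card : ℝ) ^ c,
      AlmostAll c]) ∧
    (ArithmeticKakeya ↔ ∀ ε : ℝ, 0 < ε → AlmostAll (1 + ε)) ∧
    (∀ c : ℝ, 3 / 2 ≤ c → 0 < 7 * c ^ 4 - 6 * c ^ 3 - 21 * c ^ 2 + 24 * c - 8 → AlmostAll c) := by
  refine ⟨fun c => ?_, ⟨fun h ε hε => ?_, fun h ε hε => ?_⟩, fun c hc hq => ?_⟩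
  · tfae_have 1 → 3 := by
      rintro ⟨S, hS, h⟩
      exact almostAll_of_max hS h
    tfae_have 3 → 2 := slices_of_almostAll
    tfae_have 2 → 1 := by
      rintro ⟨k, h⟩
      exact ⟨_, slope_notMem k, max_of_slices h⟩
    tfae_finish
  · obtain ⟨S, hS, h1⟩ := h ε hε
    exact almostAll_of_max (S := insertNone S) (by simpa using hS) (max_of_sd h1)
  · obtain ⟨k, h1⟩ := slices_of_almostAll (h ε hε)
    refine ⟨eraseNone ((range k).image slope), ?_, fun A =>
      sd_of_max (by linarith) (max_of_slices h1) A⟩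
    rw [mem_eraseNone]
    exact slope_notMem k
  · obtain ⟨S, hS, h1⟩ := Pool.Agent.X163.Ak.sdc_root hc hq
    exact almostAll_of_max (S := insertNone S) (by simpa using hS) (max_of_sd h1)

end Pool.Agent.Results.MP_169869_co.AlmostAllSlices
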