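import Pool.Agent.Results.MP_169869_co.AlmostAllSlices
import Pool.Agent.X163.Ak.MultTensor

/-! # The sums-differences inequality with the multiplicities of the differences

Let `S` be a finite set of slopes, `-1 ∉ S`, and `1 ≤ c ≤ 2`. If `|π₋₁(A)| ≤ max_{r ∈ S} |π_r(A)| ^ c`
for all finite `A ⊂ ℤ × ℤ`, then `∑_e m(e) ^ (c - 1) ≤ max_{r ∈ S} |π_r(A)| ^ c` for all finite `A`, where
`e` runs over `π₋₁(A)` and `m(e)` is the number of the points of `A` with difference `e`; no constants
are lost. For `c = 2` this is the trivial bound `|A| ≤ max |π_r(A)| ^ 2`. In particular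
`|A| ≤ M ^ (2 - c) max |π_r(A)| ^ c` if no difference occurs more than `M` times. The exponent `c - 1` is
optimal. So the arithmetic Kakeya conjecture is equivalent to its version with multiplicities, and the
known exponents `c > 1.66958684...` hold with multiplicities.

Proof. For a high power of `A`, consider the cells of a random linear map into a vector space of about
`m` elements over a large prime field, where `m` is the size of the fibres considered. A cell has few
points on each difference, so that the original inequality in the cells gives the new one, up to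
constants; the constants disappear by the power trick. -/

set_option autoImplicit false

open Finset Filter Topology

namespace Pool.Agent.Results.MP_169869_co.FibreMultiplicity

open Pool.Agent.Results.MP_169869_co.GeometricMeans

/-- The number of the points `(x, y)` of `A` with `x - y = e`. -/
def mult (A : Finset (ℤ × ℤ)) (e : ℤ) : ℕ := (A.filter (fun z => z.1 - z.2 = e)).card

/-- `∑_e m(e) ^ s ≤ max_{r ∈ S} |π_r(A)| ^ c` for all finite nonempty `A`, where `e` runs over the
differences `x - y`, `(x, y) ∈ A`. -/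
def MultBound (S : Finset (Option ℚ)) (c s : ℝ) : Prop :=
  ∀ A : Finset (ℤ × ℤ), A.Nonempty →
    ∃ r ∈ S, ∑ e ∈ A.image (fun z => z.1 - z.2), (mult A e : ℝ) ^ s ≤ ((proj r A).card : ℝ) ^ c

/-- The number of the starts `a` with `(a, d) ∈ A`. -/
def starts (A : Finset (ℤ × ℤ)) (d : ℤ) : ℕ := (A.filter (fun z => z.2 = d)).card

namespace Aux4

open Pool.Agent.X163.Ak.Mult (form)

/-- integral coefficients of a slope -/
def cu (r : Option ℚ) : ℤ := match r with
  | none => 0
  | some t => t.den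

/-- integral coefficients of a slope -/
def cv (r : Option ℚ) : ℤ := match r with
  | none => 1
  | some t => t.num

theorem card_proj (r : Option ℚ) (A : Finset (ℤ × ℤ)) :
    (proj r A).card = (A.image (form (cu r) (cv r))).card := by
  classical
  cases r with
  | none =>
    have h : proj none A = (A.image (form (cu none) (cv none))).image (fun x : ℤ => (x : ℚ)) := by
      unfold proj
      rw [image_image]
      refine image_congr fun z _ => ?_
      simp [form, cu, cv]
    rw [h, card_image_of_injective _ Int.cast_injective]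
  | some t =>
    have hden : (t.den : ℚ) ≠ 0 := by exact_mod_cast t.den_ne_zero
    have h : proj (some t) A = (A.image (form (cu (some t)) (cv (some t)))).image
        (fun x : ℤ => (x : ℚ) / t.den) := by
      unfold proj
      rw [image_image]
      refine image_congr fun z _ => ?_
      simp only [form, cu, cv, Function.comp]
      push_cast
      rw [eq_div_iff hden]
      nth_rewrite 1 [← Rat.num_div_den t]
      field_simp
    rw [h, card_image_of_injective]
    intro x y hxy
    simp only at hxy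
    have := (div_left_inj' hden).1 hxy
    exact_mod_cast this

theorem card_diff (A : Finset (ℤ × ℤ)) :
    (proj (some (-1)) A).card = (A.image (form 1 (-1))).card := by
  have h := card_proj (some (-1)) A
  have e1 : cu (some (-1)) = 1 := rfl
  have e2 : cv (some (-1)) = -1 := rfl
  rwa [e1, e2] at h

theorem form_diff : form 1 (-1) = fun z : ℤ × ℤ => z.1 - z.2 := by
  funext z
  unfold form
  ring

theorem det_ne {r : Option ℚ} (hr : r ≠ some (-1)) : 1 * cv r - (-1) * cu r ≠ 0 := by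
  cases r with
  | none => simp [cu, cv]
  | some t =>
    intro h
    apply hr
    simp only [cu, cv] at h
    have h1 : t.num = -(t.den : ℤ) := by linarith
    have h2 : t = -1 := by
      rw [← Rat.num_div_den t, h1]
      have hden : (t.den : ℚ) ≠ 0 := by exact_mod_cast t.den_ne_zero
      push_cast
      field_simp
    rw [h2]

theorem mult_of_max {S : Finset (Option ℚ)} (hS : some (-1) ∉ S) {c : ℝ} (hc1 : 1 ≤ c) (hc2 : c ≤ 2)
    (h : MaxBound S c) : MultBound S c (c - 1) := by
  intro A hA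
  obtain ⟨r, hr, h1⟩ := Pool.Agent.X163.Ak.Mult.mult (I := Option ℚ) (J := S) (e := 1) (f := -1)
    (u := cu) (v := cv) hc1 hc2 (fun r hr => det_ne fun h0 => hS (h0 ▸ hr)) (fun A hA => by
      obtain ⟨r, hr, h1⟩ := h A hA
      rw [card_diff, card_proj] at h1
      exact ⟨r, hr, h1⟩) A hA
  refine ⟨r, hr, ?_⟩
  rw [card_proj]
  rw [form_diff] at h1
  exact h1

theorem max_of_mult {S : Finset (Option ℚ)} {c : ℝ} (hc1 : 1 ≤ c) (h : MultBound S c (c - 1)) :
    MaxBound S c := by
  intro A hA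
  obtain ⟨r, hr, h1⟩ := h A hA
  refine ⟨r, hr, le_trans ?_ h1⟩
  rw [card_diff, form_diff]
  calc ((A.image (fun z : ℤ × ℤ => z.1 - z.2)).card : ℝ) =
      ∑ e ∈ A.image (fun z : ℤ × ℤ => z.1 - z.2), (1 : ℝ) := by rw [sum_const, nsmul_eq_mul, mul_one]
    _ ≤ _ := by
        refine sum_le_sum fun e he => ?_
        obtain ⟨z, hz, hze⟩ := mem_image.1 he
        have h2 : 1 ≤ mult A e := card_pos.2 ⟨z, mem_filter.2 ⟨hz, hze⟩⟩
        exact Real.one_le_rpow (by exact_mod_cast h2) (by linarith)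

/-- The exponent `c - 1` is optimal. -/
theorem optimal (S : Finset (Option ℚ)) {c s : ℝ} (hc : 1 ≤ c) (hs : c - 1 < s) :
    ¬ MultBound S c s := by
  classical
  intro h
  obtain ⟨W, hW⟩ : ∃ W : ℕ, W = ∑ r ∈ S, ((cu r).natAbs + (cv r).natAbs) := ⟨_, rfl⟩
  have hlim : Tendsto (fun m : ℕ => (m : ℝ) ^ (1 + s - c)) atTop atTop :=
    (tendsto_rpow_atTop (by linarith)).comp tendsto_natCast_atTop_atTop
  obtain ⟨m, hm1, hm2⟩ := ((hlim.eventually_gt_atTop ((4 * (W : ℝ) + 1) ^ c)).and
    (eventually_ge_atTop 1)).exists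
  obtain ⟨A, hA⟩ : ∃ A : Finset (ℤ × ℤ), A = (Ico (0 : ℤ) (2 * m)) ×ˢ (Ico (0 : ℤ) (2 * m)) := ⟨_, rfl⟩
  have hm0 : (0 : ℤ) < m := by exact_mod_cast (by omega : 0 < m)
  have hmR : (1 : ℝ) ≤ m := by exact_mod_cast hm2
  have hAne : A.Nonempty := by
    rw [hA]
    exact ⟨(0, 0), by rw [mem_product, mem_Ico]; simp only; omega⟩
  obtain ⟨r, hr, h1⟩ := h A hAne
  -- the projections are small
  have h2 : ((proj r A).card : ℝ) ≤ (4 * W + 1) * m := by
    rw [card_proj]
    obtain ⟨w, hw⟩ : ∃ w : ℕ, w = (cu r).natAbs + (cv r).natAbs := ⟨_, rfl⟩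
    have hwW : w ≤ W := by
      rw [hW, hw]
      exact single_le_sum (f := fun r : Option ℚ => (cu r).natAbs + (cv r).natAbs)
        (fun _ _ => Nat.zero_le _) hr
    have h3 : A.image (form (cu r) (cv r)) ⊆ Icc (-((w : ℤ) * (2 * m))) ((w : ℤ) * (2 * m)) := by
      intro x hx
      obtain ⟨z, hz, rfl⟩ := mem_image.1 hx
      rw [hA, mem_product, mem_Ico, mem_Ico] at hz
      have h4 : |form (cu r) (cv r) z| ≤ (w : ℤ) * (2 * m) := by
        unfold form
        calc |cu r * z.1 + cv r * z.2| ≤ |cu r * z.1| + |cv r * z.2| := abs_add_le _ _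
          _ = |cu r| * z.1 + |cv r| * z.2 := by
              rw [abs_mul, abs_mul, abs_of_nonneg hz.1.1, abs_of_nonneg hz.2.1]
          _ ≤ |cu r| * (2 * m) + |cv r| * (2 * m) :=
              add_le_add (mul_le_mul_of_nonneg_left hz.1.2.le (abs_nonneg _))
                (mul_le_mul_of_nonneg_left hz.2.2.le (abs_nonneg _))
          _ = (w : ℤ) * (2 * m) := by
              rw [hw, Int.abs_eq_natAbs, Int.abs_eq_natAbs]
              push_cast
              ring
      rw [mem_Icc]
      exact abs_le.1 h4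
    have h4 := card_le_card h3
    rw [Int.card_Icc] at h4
    have h5 : ((w : ℤ) * (2 * m) + 1 - -((w : ℤ) * (2 * m))).toNat = 4 * w * m + 1 := by
      have : ((w : ℤ) * (2 * m) + 1 - -((w : ℤ) * (2 * m))) = ((4 * w * m + 1 : ℕ) : ℤ) := by
        push_cast
        ring
      rw [this, Int.toNat_natCast]
    rw [h5] at h4
    have h6 : ((A.image (form (cu r) (cv r))).card : ℝ) ≤ 4 * w * m + 1 := by exact_mod_cast h4
    have h7 : (w : ℝ) ≤ W := by exact_mod_cast hwW
    nlinarith
  -- the multiplicities are large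
  have h3 : (m : ℝ) ^ (1 + s) ≤ ∑ e ∈ A.image (fun z : ℤ × ℤ => z.1 - z.2), (mult A e : ℝ) ^ s := by
    have h4 : Ico (0 : ℤ) m ⊆ A.image (fun z : ℤ × ℤ => z.1 - z.2) := by
      intro e he
      rw [mem_Ico] at he
      refine mem_image.2 ⟨(e, 0), ?_, by ring⟩
      rw [hA, mem_product, mem_Ico, mem_Ico]
      simp only
      omega
    refine le_trans ?_ (sum_le_sum_of_subset_of_nonneg h4 fun _ _ _ => by positivity)
    have h5 : ∀ e ∈ Ico (0 : ℤ) m, (m : ℝ) ^ s ≤ (mult A e : ℝ) ^ s := by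
      intro e he
      rw [mem_Ico] at he
      refine Real.rpow_le_rpow (by positivity) ?_ (by linarith)
      have h6 : (Ico (0 : ℤ) m).image (fun y : ℤ => ((y + e, y) : ℤ × ℤ)) ⊆
          A.filter (fun z => z.1 - z.2 = e) := by
        intro z hz
        obtain ⟨y, hy, rfl⟩ := mem_image.1 hz
        rw [mem_Ico] at hy
        rw [mem_filter, hA, mem_product, mem_Ico, mem_Ico]
        simp only
        omega
      have h7 := card_le_card h6
      rw [card_image_of_injective _ (fun x y hxy => (Prod.mk.inj hxy).2), Int.card_Ico] at h7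
      unfold mult
      have h8 : ((m : ℤ) - 0).toNat = m := by simp
      rw [h8] at h7
      exact_mod_cast h7
    refine le_trans (le_of_eq ?_) (sum_le_sum h5)
    rw [sum_const, Int.card_Ico, nsmul_eq_mul, Real.rpow_add (by linarith), Real.rpow_one]
    simp
  have h4 : ((proj r A).card : ℝ) ^ c ≤ ((4 * W + 1) * m : ℝ) ^ c :=
    Real.rpow_le_rpow (Nat.cast_nonneg _) h2 (by linarith)
  have h5 : ((4 * W + 1) * m : ℝ) ^ c = (4 * (W : ℝ) + 1) ^ c * (m : ℝ) ^ c :=
    Real.mul_rpow (by positivity) (by positivity)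
  have h6 : (m : ℝ) ^ (1 + s) = (m : ℝ) ^ (1 + s - c) * (m : ℝ) ^ c := by
    rw [← Real.rpow_add (by linarith)]
    ring_nf
  have h7 : (0 : ℝ) < (m : ℝ) ^ c := by positivity
  have h8 : (m : ℝ) ^ (1 + s - c) * (m : ℝ) ^ c ≤ (4 * (W : ℝ) + 1) ^ c * (m : ℝ) ^ c := by
    rw [← h5, ← h6]
    exact h3.trans (h1.trans h4)
  exact absurd (le_of_mul_le_mul_right h8 h7) (not_le.2 hm1)

theorem slices {k : ℕ} {c : ℝ} (hc1 : 1 ≤ c) (hc2 : c ≤ 2)
    (h : ∀ A : Finset (ℤ × ℤ), A.Nonempty →
      ∃ j < k, ((diffs A).card : ℝ) ≤ ((slice (j : ℕ) A).card : ℝ) ^ c)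
    (A : Finset (ℤ × ℤ)) (hA : A.Nonempty) :
    ∃ j < k, ∑ d ∈ diffs A, (starts A d : ℝ) ^ (c - 1) ≤ ((slice (j : ℕ) A).card : ℝ) ^ c := by
  classical
  have e1 : form 0 1 = Prod.snd := by
    funext z
    unfold form
    ring
  have e2 : ∀ j : ℕ, form 1 (j : ℤ) = fun z : ℤ × ℤ => z.1 + (j : ℤ) * z.2 := by
    intro j
    funext z
    unfold form
    ring
  obtain ⟨j, hj, h1⟩ := Pool.Agent.X163.Ak.Mult.mult (I := ℕ) (J := range k) (e := 0) (f := 1)
    (u := fun _ => 1) (v := fun j => (j : ℤ)) hc1 hc2 (fun j _ => by norm_num) (fun A hA => by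
      obtain ⟨j, hj, h1⟩ := h A hA
      refine ⟨j, mem_range.2 hj, ?_⟩
      rw [e1, e2]
      exact h1) A hA
  rw [e1, e2] at h1
  exact ⟨j, mem_range.1 hj, h1⟩

theorem card_le {A : Finset (ℤ × ℤ)} {c : ℝ} (hc2 : c ≤ 2) {M : ℕ}
    (hM : ∀ e, mult A e ≤ M) : (A.card : ℝ) * (M : ℝ) ^ (c - 2) ≤
      ∑ e ∈ A.image (fun z => z.1 - z.2), (mult A e : ℝ) ^ (c - 1) := by
  classical
  have h1 : A.card = ∑ e ∈ A.image (fun z => z.1 - z.2), mult A e :=
    card_eq_sum_card_image (fun z => z.1 - z.2) A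
  rw [h1]
  push_cast
  rw [sum_mul]
  refine sum_le_sum fun e he => ?_
  obtain ⟨z, hz, hze⟩ := mem_image.1 he
  have h2 : 1 ≤ mult A e := card_pos.2 ⟨z, mem_filter.2 ⟨hz, hze⟩⟩
  have h3 : (0 : ℝ) < mult A e := by exact_mod_cast h2
  have h4 : (mult A e : ℝ) ^ (c - 1) = mult A e * (mult A e : ℝ) ^ (c - 2) := by
    nth_rewrite 2 [← Real.rpow_one (mult A e : ℝ)]
    rw [← Real.rpow_add h3]
    ring_nf
  rw [h4]
  refine mul_le_mul_of_nonneg_left ?_ h3.le
  exact Real.rpow_le_rpow_of_nonpos h3 (by exact_mod_cast hM e) (by linarith)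

end Aux4

open Aux4 Pool.Agent.Results.MP_169869_co.AlmostAllSlices.Aux2
open Pool.Agent.Results.MP_169869_co.GeometricMeans.Aux (slope max_of_sd sd_of_max)

/-- (1) For finite `S` without the slope `-1` and `1 ≤ c ≤ 2` the inequality of the conjecture is
equivalent to its version with multiplicities; then `|A| ≤ M ^ (2 - c) |π_r(A)| ^ c` for some `r ∈ S`, if
no difference `x - y` occurs more than `M` times in `A`. (2) The exponent `c - 1` is optimal. (3) The
same in the coordinates (start, difference). (4) The conjecture is equivalent to its version with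
multiplicities. (5) The version with multiplicities holds for the exponents `c > 1.66958684...`. -/
theorem result :
    (∀ (S : Finset (Option ℚ)) (c : ℝ), some (-1) ∉ S → 1 ≤ c → c ≤ 2 →
      (MaxBound S c ↔ MultBound S c (c - 1)) ∧
      (MaxBound S c → ∀ (A : Finset (ℤ × ℤ)) (M : ℕ), A.Nonempty → (∀ e, mult A e ≤ M) →
        ∃ r ∈ S, (A.card : ℝ) ≤ (M : ℝ) ^ (2 - c) * ((proj r A).card : ℝ) ^ c)) ∧
    (∀ (S : Finset (Option ℚ)) (c s : ℝ), 1 ≤ c → c - 1 < s → ¬ MultBound S c s) ∧
    (∀ (k : ℕ) (c : ℝ), 1 ≤ c → c ≤ 2 →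
      (∀ A : Finset (ℤ × ℤ), A.Nonempty →
        ∃ j < k, ((diffs A).card : ℝ) ≤ ((slice (j : ℕ) A).card : ℝ) ^ c) →
      ∀ A : Finset (ℤ × ℤ), A.Nonempty →
        ∃ j < k, ∑ d ∈ diffs A, (starts A d : ℝ) ^ (c - 1) ≤ ((slice (j : ℕ) A).card : ℝ) ^ c) ∧
    (ArithmeticKakeya ↔ ∀ ε : ℝ, 0 < ε → ε ≤ 1 →
      ∃ S : Finset (Option ℚ), some (-1) ∉ S ∧ MultBound S (1 + ε) ε) ∧
    (∀ c : ℝ, 3 / 2 ≤ c → c ≤ 2 → 0 < 7 * c ^ 4 - 6 * c ^ 3 - 21 * c ^ 2 + 24 * c - 8 →
      ∃ S : Finset (Option ℚ), some (-1) ∉ S ∧ MultBound S c (c - 1)) := by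
  refine ⟨fun S c hS hc1 hc2 => ⟨⟨mult_of_max hS hc1 hc2, max_of_mult hc1⟩, fun h A M hA hM => ?_⟩,
    fun S c s hc hs => optimal S hc hs, fun k c hc1 hc2 h A hA => slices hc1 hc2 h A hA,
    ⟨fun h ε hε hε1 => ?_, fun h ε hε => ?_⟩, fun c hc hc2 hq => ?_⟩
  · obtain ⟨r, hr, h1⟩ := mult_of_max hS hc1 hc2 h A hA
    refine ⟨r, hr, ?_⟩
    have h2 := (card_le hc2 hM).trans h1
    obtain ⟨z, hz⟩ := hA
    have h3 : 1 ≤ mult A (z.1 - z.2) := card_pos.2 ⟨z, mem_filter.2 ⟨hz, rfl⟩⟩
    have h4 : (0 : ℝ) < M := by exact_mod_cast lt_of_lt_of_le h3 (hM _)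
    have h5 : (M : ℝ) ^ (2 - c) * (M : ℝ) ^ (c - 2) = 1 := by
      rw [← Real.rpow_add h4]
      simp
    calc (A.card : ℝ) = (M : ℝ) ^ (2 - c) * ((A.card : ℝ) * (M : ℝ) ^ (c - 2)) := by
          linear_combination (-(A.card : ℝ)) * h5
      _ ≤ _ := mul_le_mul_of_nonneg_left h2 (by positivity)
  · obtain ⟨S, hS, h1⟩ := h ε hε
    have h2 : MultBound (insertNone S) (1 + ε) (1 + ε - 1) :=
      mult_of_max (by simpa using hS) (by linarith) (by linarith) (max_of_sd h1)
    rw [add_sub_cancel_left] at h2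
    exact ⟨insertNone S, by simpa using hS, h2⟩
  · obtain ⟨S, hS, h1⟩ := h (min ε 1) (lt_min hε one_pos) (min_le_right _ _)
    have h2 : MaxBound S (1 + min ε 1) := by
      refine max_of_mult ?_ ?_
      · have : 0 < min ε 1 := lt_min hε one_pos
        linarith
      · rwa [add_sub_cancel_left]
    have h3 : MaxBound S (1 + ε) := by
      intro A hA
      obtain ⟨r, hr, h4⟩ := h2 A hA
      refine ⟨r, hr, h4.trans ?_⟩
      refine Real.rpow_le_rpow_of_exponent_le
        (Pool.Agent.Results.MP_169869_co.GeometricMeans.Aux.one_le hA r) ?_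
      have := min_le_left ε 1
      linarith
    exact ⟨eraseNone S, by rwa [mem_eraseNone], fun A => sd_of_max (by linarith) h3 A⟩
  · obtain ⟨S, hS, h1⟩ := Pool.Agent.X163.Ak.sdc_root hc hq
    exact ⟨insertNone S, by simpa using hS,
      mult_of_max (by simpa using hS) (by linarith) hc2 (max_of_sd h1)⟩

end Pool.Agent.Results.MP_169869_co.FibreMultiplicity
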