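import Pool.Agent.Results.MP_169869_co.AlmostAllSlices
import Pool.Agent.X163.Ak.Rect

/-! # The arithmetic Kakeya conjecture in the integers and in prime fields

Let `A` be a finite set of pairs (start `a`, common difference `d`) of integers, or of residues
modulo a prime `p`. Let `D` be the set of the differences and `B_j` the slice of the `a + j d`. If
`|D| ≤ |B_j| ^ c` for some `j < k`, for all sets of pairs of integers, then `|D| ≤ |B_j| ^ (c + ε)`
for some `j < k`, for all sets of pairs of residues modulo `p`, as soon as the prime `p` is large in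
terms of `k`, `c`, `ε` (the set `A` may be as large as the field). So the arithmetic Kakeya conjecture
is equivalent to its version in prime fields with a fixed number of slopes, which contains the prime
fields of all large orders uniformly.

Proof. Small sets in `(ℤ/p)²` are rectifiable. Large sets are lifted to integers between `0` and `p`;
this costs a factor `k` in the number of elements of the slices, which is absorbed by `ε`. -/

set_option autoImplicit false

open Finset

namespace Pool.Agent.Results.MP_169869_co.FiniteFieldTransfer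

open Pool.Agent.Results.MP_169869_co.GeometricMeans

/-- The set of the differences `d` of the pairs `(a, d)` of residues in `A`. -/
def diffsP {p : ℕ} (A : Finset (ZMod p × ZMod p)) : Finset (ZMod p) := A.image Prod.snd

/-- The slice `{a + j d : (a, d) ∈ A}` modulo `p`. -/
def sliceP {p : ℕ} (j : ℕ) (A : Finset (ZMod p × ZMod p)) : Finset (ZMod p) :=
  A.image (fun x => x.1 + (j : ZMod p) * x.2)

/-- For all finite nonempty sets of pairs of integers, `|D| ≤ |B_j| ^ c` for some `j < k`. -/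
def BoundZ (k : ℕ) (c : ℝ) : Prop :=
  ∀ A : Finset (ℤ × ℤ), A.Nonempty →
    ∃ j < k, ((diffs A).card : ℝ) ≤ ((slice (j : ℕ) A).card : ℝ) ^ c

/-- For all nonempty sets of pairs of residues modulo `p`, `|D| ≤ |B_j| ^ c` for some `j < k`. -/
def BoundMod (p k : ℕ) (c : ℝ) : Prop :=
  ∀ A : Finset (ZMod p × ZMod p), A.Nonempty →
    ∃ j < k, ((diffsP A).card : ℝ) ≤ ((sliceP j A).card : ℝ) ^ c

namespace Aux3

theorem card_image_le_of_factor {α β γ : Type} [DecidableEq β] [DecidableEq γ]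
    (A : Finset α) (f : α → β) (g : α → γ) (h : ∀ x ∈ A, ∀ y ∈ A, f x = f y → g x = g y) :
    (A.image g).card ≤ (A.image f).card := by
  classical
  rcases A.eq_empty_or_nonempty with hA | ⟨x₀, hx₀⟩
  · subst hA; simp
  obtain ⟨e, he⟩ : ∃ e : β → γ, ∀ x ∈ A, e (f x) = g x := by
    refine ⟨fun b => if hb : ∃ x ∈ A, f x = b then g hb.choose else g x₀, fun x hx => ?_⟩
    have hb : ∃ y ∈ A, f y = f x := ⟨x, hx, rfl⟩
    simp only [hb, dite_true]
    exact h _ hb.choose_spec.1 x hx hb.choose_spec.2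
  have : A.image g ⊆ (A.image f).image e := by
    intro z hz
    obtain ⟨x, hx, rfl⟩ := mem_image.1 hz
    rw [← he x hx]
    exact mem_image_of_mem _ (mem_image_of_mem _ hx)
  exact (card_le_card this).trans card_image_le

/-- one point for every difference -/
theorem thin {p : ℕ} (A : Finset (ZMod p × ZMod p)) : ∃ A' ⊆ A,
    A'.image Prod.snd = A.image Prod.snd ∧ ∀ x ∈ A', ∀ y ∈ A', x.2 = y.2 → x = y := by
  classical
  have h : ∀ d ∈ A.image Prod.snd, ∃ x ∈ A, x.2 = d := fun d hd => by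
    obtain ⟨x, hx, rfl⟩ := mem_image.1 hd
    exact ⟨x, hx, rfl⟩
  choose! g hg hg2 using h
  refine ⟨(A.image Prod.snd).image g, ?_, ?_, ?_⟩
  · intro z hz
    obtain ⟨d, hd, rfl⟩ := mem_image.1 hz
    exact hg d hd
  · ext d
    rw [mem_image]
    constructor
    · rintro ⟨z, hz, rfl⟩
      obtain ⟨e, he, rfl⟩ := mem_image.1 hz
      rw [hg2 e he]
      exact he
    · intro hd
      exact ⟨g d, mem_image_of_mem _ hd, hg2 d hd⟩
  · intro x hx y hy hxy
    obtain ⟨d, hd, rfl⟩ := mem_image.1 hx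
    obtain ⟨e, he, rfl⟩ := mem_image.1 hy
    rw [hg2 d hd, hg2 e he] at hxy
    rw [hxy]

theorem one_le_sliceP {p : ℕ} {A : Finset (ZMod p × ZMod p)} (hA : A.Nonempty) (j : ℕ) :
    (1 : ℝ) ≤ ((sliceP j A).card : ℝ) := by
  exact_mod_cast (hA.image _).card_pos

/-- lifting costs a factor `k` -/
theorem card_lift {p : ℕ} (hp : 0 < p) {k j : ℕ} (hj : j < k) (A : Finset (ZMod p × ZMod p)) :
    (slice (j : ℕ) (A.image (fun x => ((x.1.val : ℤ), (x.2.val : ℤ))))).card ≤
      k * (sliceP j A).card := by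
  classical
  have := NeZero.of_pos hp
  have hsub : slice (j : ℕ) (A.image (fun x => ((x.1.val : ℤ), (x.2.val : ℤ)))) ⊆
      ((range k) ×ˢ (sliceP j A)).image (fun z => ((p * z.1 + z.2.val : ℕ) : ℤ)) := by
    intro z hz
    unfold GeometricMeans.slice at hz
    rw [image_image, mem_image] at hz
    obtain ⟨x, hx, rfl⟩ := hz
    simp only [Function.comp]
    obtain ⟨v, hv⟩ : ∃ v : ℕ, v = x.1.val + j * x.2.val := ⟨_, rfl⟩
    have hvp : v < p * k := by
      have h1 := ZMod.val_lt x.1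
      have h2 := ZMod.val_lt x.2
      have h3 : j * x.2.val ≤ j * (p - 1) := Nat.mul_le_mul_left _ (by omega)
      have h4 : v < p + j * (p - 1) := by omega
      have h5 : p + j * (p - 1) ≤ p * k := by
        have h6 : j * (p - 1) ≤ j * p := Nat.mul_le_mul_left _ (by omega)
        have h7 : (j + 1) * p ≤ k * p := Nat.mul_le_mul_right _ hj
        nlinarith
      omega
    have hres : x.1 + (j : ZMod p) * x.2 = ((v % p : ℕ) : ZMod p) := by
      rw [ZMod.natCast_mod, hv]
      push_cast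
      rw [ZMod.natCast_zmod_val, ZMod.natCast_zmod_val]
    have hval : (x.1 + (j : ZMod p) * x.2).val = v % p := by
      rw [hres, ZMod.val_natCast, Nat.mod_mod]
    refine mem_image.2 ⟨(v / p, x.1 + (j : ZMod p) * x.2), ?_, ?_⟩
    · rw [mem_product, mem_range]
      refine ⟨Nat.div_lt_of_lt_mul hvp, mem_image_of_mem _ hx⟩
    · simp only
      rw [hval, Nat.div_add_mod, hv]
      push_cast
      ring
  refine (card_le_card hsub).trans (card_image_le.trans ?_)
  rw [card_product, card_range]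

theorem to_mod {k : ℕ} {c ε : ℝ} (hc : 0 ≤ c) (hε : 0 < ε) (h : BoundZ k c) :
    ∃ p₀ : ℕ, ∀ p : ℕ, p.Prime → p₀ ≤ p → BoundMod p k (c + ε) := by
  classical
  obtain ⟨n, hn⟩ := exists_nat_gt (((k : ℝ) * (k : ℝ) ^ (c / ε)) ^ c)
  obtain ⟨p₀, hp₀⟩ := Pool.Agent.X163.Ak.Rect.rect n k
  refine ⟨p₀, fun p hp hpp A hA => ?_⟩
  have := Fact.mk hp
  have hk : 0 < k := by
    obtain ⟨j, hj, -⟩ := h {(0, 0)} (singleton_nonempty _)
    omega
  have hkR : (1 : ℝ) ≤ k := by exact_mod_cast hk
  obtain ⟨A', hA'A, hdA, hinj⟩ := thin A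
  have hA' : A'.Nonempty := by
    rw [← image_nonempty (f := Prod.snd), hdA]
    exact hA.image _
  have hcard : (diffsP A).card = A'.card := by
    unfold diffsP
    rw [← hdA, card_image_of_injOn]
    intro x hx y hy hxy
    exact hinj x hx y hy hxy
  have hmono : ∀ j, (sliceP j A').card ≤ (sliceP j A).card := fun j =>
    card_le_card (image_subset_image hA'A)
  rcases le_or_gt A'.card n with hsmall | hlarge
  · obtain ⟨t, ht1, ht2⟩ := hp₀ p hp hpp A' hsmall
    obtain ⟨j, hj, h1⟩ := h (A'.image (fun x => (t x.1, t x.2))) (hA'.image _)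
    refine ⟨j, hj, ?_⟩
    have h2 : A'.card ≤ (diffs (A'.image (fun x => (t x.1, t x.2)))).card := by
      unfold GeometricMeans.diffs
      rw [image_image, card_image_of_injOn]
      intro x hx y hy hxy
      exact hinj x hx y hy (ht1 x hx y hy hxy)
    have h3 : (slice (j : ℕ) (A'.image (fun x => (t x.1, t x.2)))).card ≤ (sliceP j A').card := by
      unfold GeometricMeans.slice sliceP
      rw [image_image]
      exact card_image_le_of_factor _ _ _ fun x hx y hy hxy => ht2 j hj x hx y hy hxy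
    have h3' : ((slice (j : ℕ) (A'.image (fun x => (t x.1, t x.2)))).card : ℝ) ≤
        ((sliceP j A).card : ℝ) := by exact_mod_cast h3.trans (hmono j)
    calc ((diffsP A).card : ℝ) = (A'.card : ℝ) := by rw [hcard]
      _ ≤ ((diffs (A'.image (fun x => (t x.1, t x.2)))).card : ℝ) := by exact_mod_cast h2
      _ ≤ _ := h1
      _ ≤ ((sliceP j A).card : ℝ) ^ c := Real.rpow_le_rpow (Nat.cast_nonneg _) h3' hc
      _ ≤ ((sliceP j A).card : ℝ) ^ (c + ε) :=
          Real.rpow_le_rpow_of_exponent_le (one_le_sliceP hA j) (by linarith)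
  · obtain ⟨j, hj, h1⟩ := h (A'.image (fun x => ((x.1.val : ℤ), (x.2.val : ℤ)))) (hA'.image _)
    refine ⟨j, hj, ?_⟩
    have h2 : A'.card ≤ (diffs (A'.image (fun x => ((x.1.val : ℤ), (x.2.val : ℤ))))).card := by
      unfold GeometricMeans.diffs
      rw [image_image, card_image_of_injOn]
      intro x hx y hy hxy
      refine hinj x hx y hy (ZMod.val_injective p ?_)
      have hxy' : ((x.2.val : ℕ) : ℤ) = ((y.2.val : ℕ) : ℤ) := hxy
      exact_mod_cast hxy'
    have h3 : ((slice (j : ℕ) (A'.image (fun x => ((x.1.val : ℤ), (x.2.val : ℤ))))).card : ℝ) ≤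
        (k : ℝ) * ((sliceP j A).card : ℝ) := by
      exact_mod_cast (card_lift hp.pos hj A').trans (Nat.mul_le_mul_left _ (hmono j))
    obtain ⟨b, hb⟩ : ∃ b : ℝ, b = ((sliceP j A).card : ℝ) := ⟨_, rfl⟩
    have hb1 : 1 ≤ b := by rw [hb]; exact one_le_sliceP hA j
    have h4 : (A'.card : ℝ) ≤ ((k : ℝ) * b) ^ c := by
      calc (A'.card : ℝ) ≤ ((diffs (A'.image (fun x => ((x.1.val : ℤ), (x.2.val : ℤ))))).card : ℝ) :=
            by exact_mod_cast h2
        _ ≤ _ := h1
        _ ≤ ((k : ℝ) * b) ^ c := by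
            rw [hb]
            exact Real.rpow_le_rpow (Nat.cast_nonneg _) h3 hc
    rw [hcard, ← hb]
    rcases le_or_gt ((k : ℝ) ^ (c / ε)) b with hbig | hsm
    · refine h4.trans ?_
      rw [Real.mul_rpow (by positivity) (by positivity), Real.rpow_add (by positivity), mul_comm]
      refine mul_le_mul_of_nonneg_left ?_ (by positivity)
      have h5 := Real.rpow_le_rpow (by positivity) hbig hε.le
      rwa [← Real.rpow_mul (by positivity), div_mul_cancel₀ _ hε.ne'] at h5
    · exfalso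
      have h5 : ((k : ℝ) * b) ^ c ≤ ((k : ℝ) * (k : ℝ) ^ (c / ε)) ^ c :=
        Real.rpow_le_rpow (by positivity) (mul_le_mul_of_nonneg_left hsm.le (by positivity)) hc
      have h6 : (n : ℝ) < A'.card := by exact_mod_cast hlarge
      linarith

theorem to_int {k : ℕ} {c : ℝ} (hc : 0 ≤ c) (h : ∀ p₀ : ℕ, ∃ p ≥ p₀, BoundMod p k c) :
    BoundZ k c := by
  classical
  intro A hA
  obtain ⟨M, hM⟩ : ∃ M : ℕ, ∀ x ∈ A, x.2.natAbs ≤ M := by
    refine ⟨∑ x ∈ A, x.2.natAbs, fun x hx => ?_⟩
    exact single_le_sum (f := fun x : ℤ × ℤ => x.2.natAbs) (fun _ _ => Nat.zero_le _) hx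
  obtain ⟨p, hp, hB⟩ := h (2 * M + 1)
  obtain ⟨j, hj, h1⟩ := hB (A.image (fun x => ((x.1 : ZMod p), (x.2 : ZMod p)))) (hA.image _)
  refine ⟨j, hj, ?_⟩
  have h2 : (diffs A).card ≤
      (diffsP (A.image (fun x => ((x.1 : ZMod p), (x.2 : ZMod p))))).card := by
    unfold GeometricMeans.diffs diffsP
    rw [image_image]
    refine card_image_le_of_factor _ _ _ fun x hx y hy hxy => ?_
    simp only [Function.comp] at hxy
    have h3 : ((x.2 - y.2 : ℤ) : ZMod p) = 0 := by push_cast; rw [hxy, sub_self]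
    have h4 : (p : ℤ) ∣ x.2 - y.2 := (ZMod.intCast_zmod_eq_zero_iff_dvd _ p).1 h3
    have h5 := hM x hx
    have h6 := hM y hy
    have h7 : |x.2 - y.2| < (p : ℤ) := by
      have a1 : |x.2| ≤ M := by rw [Int.abs_eq_natAbs]; exact_mod_cast h5
      have a2 : |y.2| ≤ M := by rw [Int.abs_eq_natAbs]; exact_mod_cast h6
      have a3 := abs_sub x.2 y.2
      have a4 : ((2 * M + 1 : ℕ) : ℤ) ≤ p := by exact_mod_cast hp
      push_cast at a4
      linarith
    have := Int.eq_zero_of_abs_lt_dvd h4 h7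
    linarith
  have h3 : (sliceP j (A.image (fun x => ((x.1 : ZMod p), (x.2 : ZMod p))))).card ≤
      (slice (j : ℕ) A).card := by
    unfold GeometricMeans.slice sliceP
    rw [image_image]
    refine card_image_le_of_factor _ _ _ fun x hx y hy hxy => ?_
    simp only [Function.comp]
    have := congrArg (fun z : ℤ => (z : ZMod p)) hxy
    simpa using this
  calc ((diffs A).card : ℝ) ≤ _ := by exact_mod_cast h2
    _ ≤ _ := h1
    _ ≤ _ := Real.rpow_le_rpow (Nat.cast_nonneg _) (by exact_mod_cast h3) hc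

end Aux3

open Aux3 Pool.Agent.Results.MP_169869_co.AlmostAllSlices
open Pool.Agent.Results.MP_169869_co.AlmostAllSlices.Aux2
open Pool.Agent.Results.MP_169869_co.GeometricMeans.Aux (slope max_of_sd sd_of_max)

theorem result :
    (∀ (k : ℕ) (c ε : ℝ), 0 ≤ c → 0 < ε → BoundZ k c →
      ∃ p₀ : ℕ, ∀ p : ℕ, p.Prime → p₀ ≤ p → BoundMod p k (c + ε)) ∧
    (∀ (k : ℕ) (c : ℝ), 0 ≤ c → (∀ p₀ : ℕ, ∃ p ≥ p₀, BoundMod p k c) → BoundZ k c) ∧
    (ArithmeticKakeya ↔
      ∀ ε : ℝ, 0 < ε → ∃ k p₀ : ℕ, ∀ p : ℕ, p.Prime → p₀ ≤ p → BoundMod p k (1 + ε)) ∧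
    (∀ c : ℝ, 3 / 2 ≤ c → 0 < 7 * c ^ 4 - 6 * c ^ 3 - 21 * c ^ 2 + 24 * c - 8 →
      ∃ k p₀ : ℕ, ∀ p : ℕ, p.Prime → p₀ ≤ p → BoundMod p k c) := by
  refine ⟨fun k c ε hc hε h => to_mod hc hε h, fun k c hc h => to_int hc h, ⟨?_, ?_⟩, ?_⟩
  · intro h ε hε
    obtain ⟨S, hS, h1⟩ := h (ε / 2) (by linarith)
    obtain ⟨k, hk⟩ := slices_of_almostAll
      (almostAll_of_max (S := insertNone S) (by simpa using hS) (max_of_sd h1))
    obtain ⟨p₀, hp₀⟩ := to_mod (by linarith : (0 : ℝ) ≤ 1 + ε / 2) (by linarith : 0 < ε / 2) hk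
    refine ⟨k, p₀, fun p hp hpp => ?_⟩
    have := hp₀ p hp hpp
    have e : 1 + ε / 2 + ε / 2 = 1 + ε := by ring
    rwa [e] at this
  · intro h ε hε
    obtain ⟨k, p₀, h1⟩ := h ε hε
    have h2 : BoundZ k (1 + ε) := to_int (by linarith) fun q => by
      obtain ⟨p, hp, hpp⟩ := Nat.exists_infinite_primes (max q p₀)
      exact ⟨p, (le_max_left _ _).trans hp, h1 p hpp ((le_max_right _ _).trans hp)⟩
    refine ⟨eraseNone ((range k).image slope), ?_, fun A =>
      sd_of_max (by linarith) (max_of_slices h2) A⟩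
    rw [mem_eraseNone]
    exact slope_notMem k
  · intro c hc hq
    have hcont : Continuous fun x : ℝ => 7 * x ^ 4 - 6 * x ^ 3 - 21 * x ^ 2 + 24 * x - 8 := by
      fun_prop
    have hc2 : 3 / 2 < c := by
      rcases eq_or_lt_of_le hc with h | h
      · subst h
        norm_num at hq
      · exact h
    have hev : ∀ᶠ x in nhds c, 0 < 7 * x ^ 4 - 6 * x ^ 3 - 21 * x ^ 2 + 24 * x - 8 :=
      hcont.continuousAt.eventually (lt_mem_nhds hq)
    obtain ⟨δ, hδ, hball⟩ := Metric.eventually_nhds_iff.1 hev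
    obtain ⟨x, hx⟩ : ∃ x, x = max (3 / 2) (c - δ / 2) := ⟨_, rfl⟩
    have hx1 : 3 / 2 ≤ x := by rw [hx]; exact le_max_left _ _
    have hx2 : c - δ / 2 ≤ x := by rw [hx]; exact le_max_right _ _
    have hx3 : x < c := by rw [hx]; exact max_lt hc2 (by linarith)
    have hqx : 0 < 7 * x ^ 4 - 6 * x ^ 3 - 21 * x ^ 2 + 24 * x - 8 := by
      refine hball (y := x) ?_
      rw [Real.dist_eq, abs_lt]
      constructor <;> linarith
    obtain ⟨S, hS, h1⟩ := Pool.Agent.X163.Ak.sdc_root hx1 hqx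
    obtain ⟨k, hk⟩ := slices_of_almostAll
      (almostAll_of_max (S := insertNone S) (by simpa using hS) (max_of_sd h1))
    obtain ⟨p₀, hp₀⟩ := to_mod (by linarith : (0 : ℝ) ≤ x) (by linarith : 0 < c - x) hk
    refine ⟨k, p₀, fun p hp hpp => ?_⟩
    have := hp₀ p hp hpp
    have e : x + (c - x) = c := by ring
    rwa [e] at this

end Pool.Agent.Results.MP_169869_co.FiniteFieldTransfer
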