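import Pool.Agent.X163.Ak.Root
import Pool.Agent.X163.Ak.Geo

/-! # Geometric means in the arithmetic Kakeya conjecture

For every finite set `S` of slopes and every exponent `c` the inequality
`|π₋₁(A)| ≤ max_{r ∈ S} |π_r(A)| ^ c` for all finite `A ⊂ ℤ × ℤ` is equivalent to the same inequality
with the maximum replaced by a suitable weighted geometric mean of the `|π_r(A)|`, and also to the
inequality up to a constant and an arbitrarily small power. The arithmetic Kakeya conjecture is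
equivalent to its version with the unweighted geometric mean of `k` consecutive slices, and this
version holds with every exponent above the root `1.66958684...` of
`7 x ^ 4 - 6 x ^ 3 - 21 x ^ 2 + 24 x - 8`. -/

set_option autoImplicit false

open Finset

namespace Pool.Agent.Results.MP_169869_co.GeometricMeans

/-- The projection `π_r(A)` of `A`, where `none` stands for the slope `∞`. -/
def proj (r : Option ℚ) (A : Finset (ℤ × ℤ)) : Finset ℚ :=
  A.image (fun p => match r with
    | none => (p.2 : ℚ)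
    | some t => (p.1 : ℚ) + t * (p.2 : ℚ))

/-- `|π₋₁(A)| ≤ max_{r ∈ S} |π_r(A)| ^ c` for all finite nonempty `A`. -/
def MaxBound (S : Finset (Option ℚ)) (c : ℝ) : Prop :=
  ∀ A : Finset (ℤ × ℤ), A.Nonempty →
    ∃ r ∈ S, ((proj (some (-1)) A).card : ℝ) ≤ ((proj r A).card : ℝ) ^ c

/-- The same up to a constant factor and an arbitrarily small power. -/
def WeakBound (S : Finset (Option ℚ)) (c : ℝ) : Prop :=
  ∀ ε : ℝ, 0 < ε → ∃ C : ℝ, ∀ A : Finset (ℤ × ℤ), A.Nonempty →
    ∃ r ∈ S, ((proj (some (-1)) A).card : ℝ) ≤ C * ((proj r A).card : ℝ) ^ (c + ε)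

/-- `|π₋₁(A)| ≤ (∏_{r ∈ S} |π_r(A)| ^ w_r) ^ c` for all finite nonempty `A`. -/
def ProductBound (S : Finset (Option ℚ)) (c : ℝ) (w : Option ℚ → ℝ) : Prop :=
  ∀ A : Finset (ℤ × ℤ), A.Nonempty →
    ((proj (some (-1)) A).card : ℝ) ≤ (∏ r ∈ S, ((proj r A).card : ℝ) ^ w r) ^ c

/-- The slice `{a + j d : (a, d) ∈ A}`. -/
def slice (j : ℤ) (A : Finset (ℤ × ℤ)) : Finset ℤ := A.image (fun p => p.1 + j * p.2)

/-- The set `{d : (a, d) ∈ A}` of differences. -/
def diffs (A : Finset (ℤ × ℤ)) : Finset ℤ := A.image Prod.snd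

/-- `|D| ≤ (∏_{j < k} |B_j|) ^ (c / k)` for the set `D` of differences and the slices `B_j` of every
finite set `A` of pairs (start, difference). -/
def SliceBound (k : ℕ) (c : ℝ) : Prop :=
  ∀ A : Finset (ℤ × ℤ), A.Nonempty →
    ((diffs A).card : ℝ) ≤ (∏ j ∈ range k, ((slice j A).card : ℝ)) ^ (c / k)

/-- The arithmetic Kakeya conjecture: the frozen statement `S07345`. -/
def ArithmeticKakeya : Prop :=
  ∀ ε : ℝ, 0 < ε →
    ∃ S : Finset ℚ, (-1 : ℚ) ∉ S ∧
      ∀ A : Finset (ℤ × ℤ),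
        ((A.image (fun p : ℤ × ℤ => (p.1 : ℚ) + (-1) * (p.2 : ℚ))).card : ℝ) ≤
          (max ((A.image (fun p : ℤ × ℤ => (p.2 : ℚ))).card : ℝ)
              ((S.sup (fun r : ℚ =>
                  (A.image (fun p : ℤ × ℤ => (p.1 : ℚ) + r * (p.2 : ℚ))).card) : ℕ) : ℝ))
            ^ (1 + ε)

namespace Aux

open Pool.Agent.X163.Ak.Geo (comb pv)

theorem proj_eq' (r : Option ℚ) (A : Finset (ℤ × ℤ)) :
    proj r A = Pool.Agent.X163.Ak.Geo.proj r A := by
  cases r <;> rfl

/-- logarithm of the size of a projection -/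
noncomputable def L (r : Option ℚ) (A : Finset (ℤ × ℤ)) : ℝ := Real.log ((proj r A).card : ℝ)

theorem one_le {A : Finset (ℤ × ℤ)} (hA : A.Nonempty) (r : Option ℚ) :
    (1 : ℝ) ≤ (proj r A).card := by
  rw [proj_eq']; exact Pool.Agent.X163.Ak.Geo.one_le_card hA r

theorem L_nonneg {A : Finset (ℤ × ℤ)} (hA : A.Nonempty) (r : Option ℚ) : 0 ≤ L r A :=
  Real.log_nonneg (one_le hA r)

theorem L_comb_le {A B : Finset (ℤ × ℤ)} (hA : A.Nonempty) (hB : B.Nonempty) (r : Option ℚ)
    (N : ℤ) : L r (comb N A B) ≤ L r A + L r B := by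
  unfold L
  rw [← Real.log_mul (by linarith [one_le hA r]) (by linarith [one_le hB r])]
  apply Real.log_le_log
  · linarith [one_le (Pool.Agent.X163.Ak.Geo.comb_nonempty hA hB N) r]
  · rw [proj_eq', proj_eq', proj_eq']
    exact_mod_cast Pool.Agent.X163.Ak.Geo.card_proj_comb_le r N A B

theorem exists_comb {A B : Finset (ℤ × ℤ)} (hA : A.Nonempty) (hB : B.Nonempty) :
    ∃ E : Finset (ℤ × ℤ), E.Nonempty ∧ (∀ r, L r E ≤ L r A + L r B) ∧
      L (some (-1)) A + L (some (-1)) B ≤ L (some (-1)) E := by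
  obtain ⟨N, hN⟩ := Pool.Agent.X163.Ak.Geo.exists_comb A B
  refine ⟨comb N A B, Pool.Agent.X163.Ak.Geo.comb_nonempty hA hB N,
    fun r => L_comb_le hA hB r N, ?_⟩
  unfold L
  rw [← Real.log_mul (by linarith [one_le hA (some (-1))]) (by linarith [one_le hB (some (-1))])]
  apply Real.log_le_log
  · have h1 := one_le hA (some (-1))
    have h2 := one_le hB (some (-1))
    positivity
  · rw [proj_eq', proj_eq', proj_eq']
    exact_mod_cast hN

theorem exists_pow {A : Finset (ℤ × ℤ)} (hA : A.Nonempty) (n : ℕ) :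
    ∃ E : Finset (ℤ × ℤ), E.Nonempty ∧ (∀ r, L r E ≤ n * L r A) ∧
      n * L (some (-1)) A ≤ L (some (-1)) E := by
  induction n with
  | zero =>
    refine ⟨{(0, 0)}, singleton_nonempty _, fun r => ?_, ?_⟩
    · unfold L proj; simp
    · unfold L proj; simp
  | succ n ih =>
    obtain ⟨E, hE, h1, h2⟩ := ih
    obtain ⟨F, hF, h3, h4⟩ := exists_comb hE hA
    refine ⟨F, hF, fun r => ?_, ?_⟩
    · have := h3 r; have := h1 r; push_cast; linarith
    · push_cast; linarith

theorem le_rpow_iff {x y c : ℝ} (hx : 0 < x) (hy : 0 < y) :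
    x ≤ y ^ c ↔ Real.log x ≤ c * Real.log y := by
  rw [← Real.log_rpow hy, Real.log_le_log_iff hx (Real.rpow_pos_of_pos hy c)]

theorem maxBound_iff {S : Finset (Option ℚ)} {c : ℝ} :
    MaxBound S c ↔ ∀ A : Finset (ℤ × ℤ), A.Nonempty → ∃ r ∈ S, L (some (-1)) A ≤ c * L r A := by
  unfold MaxBound L
  refine forall_congr' fun A => forall_congr' fun hA => exists_congr fun r => and_congr_right fun _ => ?_
  exact le_rpow_iff (by linarith [one_le hA (some (-1))]) (by linarith [one_le hA r])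

theorem productBound_iff {S : Finset (Option ℚ)} {c : ℝ} {w : Option ℚ → ℝ} :
    ProductBound S c w ↔ ∀ A : Finset (ℤ × ℤ), A.Nonempty →
      L (some (-1)) A ≤ c * ∑ r ∈ S, w r * L r A := by
  unfold ProductBound L
  refine forall_congr' fun A => forall_congr' fun hA => ?_
  have hpos : ∀ r ∈ S, 0 < ((proj r A).card : ℝ) ^ w r := fun r _ =>
    Real.rpow_pos_of_pos (by linarith [one_le hA r]) _
  rw [le_rpow_iff (by linarith [one_le hA (some (-1))]) (prod_pos hpos),
    Real.log_prod fun r hr => (hpos r hr).ne']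
  have : ∑ r ∈ S, Real.log (((proj r A).card : ℝ) ^ w r) =
      ∑ r ∈ S, w r * Real.log ((proj r A).card : ℝ) :=
    sum_congr rfl fun r _ => Real.log_rpow (by linarith [one_le hA r]) _
  rw [this]

theorem weak_of_max {S : Finset (Option ℚ)} {c : ℝ} (h : MaxBound S c) : WeakBound S c := by
  intro ε hε
  refine ⟨1, fun A hA => ?_⟩
  obtain ⟨r, hr, h1⟩ := h A hA
  refine ⟨r, hr, h1.trans ?_⟩
  rw [one_mul]
  exact Real.rpow_le_rpow_of_exponent_le (one_le hA r) (by linarith)

theorem max_of_weak {S : Finset (Option ℚ)} {c : ℝ} (hc0 : 0 ≤ c) (h : WeakBound S c) :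
    MaxBound S c := by
  rw [maxBound_iff]
  intro A hA
  by_contra hno
  push Not at hno
  have hS : S.Nonempty := by
    obtain ⟨C, hC⟩ := h 1 one_pos
    obtain ⟨r, hr, -⟩ := hC A hA
    exact ⟨r, hr⟩
  obtain ⟨r₀, hr₀, h₀⟩ := exists_min_image S (fun r => L (some (-1)) A - c * L r A) hS
  obtain ⟨δ, hδ⟩ : ∃ δ, δ = L (some (-1)) A - c * L r₀ A := ⟨_, rfl⟩
  have hδ0 : 0 < δ := by rw [hδ]; linarith [hno r₀ hr₀]
  obtain ⟨M, hM⟩ : ∃ M, M = ∑ r ∈ S, L r A := ⟨_, rfl⟩
  have hM' : ∀ r ∈ S, L r A ≤ M := fun r hr => by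
    rw [hM]; exact single_le_sum (f := fun r => L r A) (fun i _ => L_nonneg hA i) hr
  have hM0 : 0 ≤ M := (L_nonneg hA r₀).trans (hM' r₀ hr₀)
  obtain ⟨ε, hε⟩ : ∃ ε, ε = δ / (2 * (M + 1)) := ⟨_, rfl⟩
  have hε0 : 0 < ε := by rw [hε]; positivity
  have hεM : ε * M ≤ δ / 2 := by
    have h2 : ε * (M + 1) = δ / 2 := by
      rw [hε]
      field_simp
    nlinarith
  obtain ⟨C, hC⟩ := h ε hε0
  obtain ⟨n, hn⟩ := exists_nat_gt (Real.log C / (δ / 2))
  obtain ⟨E, hE, hE1, hE2⟩ := exists_pow hA n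
  obtain ⟨r, hr, hCr⟩ := hC E hE
  have hCpos : 0 < C := by
    by_contra hC0
    push Not at hC0
    have h1 := one_le hE (some (-1))
    have h2 : 0 ≤ ((proj r E).card : ℝ) ^ (c + ε) :=
      Real.rpow_nonneg (by linarith [one_le hE r]) _
    nlinarith
  have h3 : L (some (-1)) E ≤ Real.log C + (c + ε) * L r E := by
    unfold L
    rw [← Real.log_rpow (by linarith [one_le hE r]),
      ← Real.log_mul hCpos.ne' (Real.rpow_pos_of_pos (by linarith [one_le hE r]) _).ne']
    exact Real.log_le_log (by linarith [one_le hE (some (-1))]) hCr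
  have hnδ : Real.log C < n * (δ / 2) := by rwa [div_lt_iff₀ (by positivity)] at hn
  have h5 := h₀ r hr
  have h6 := hE1 r
  have h7 := hM' r hr
  have h9 := L_nonneg hE r
  have hn0 : (0 : ℝ) ≤ n := Nat.cast_nonneg _
  have hc : 0 ≤ c + ε := by linarith
  have h8 : (c + ε) * L r E ≤ (c + ε) * (n * L r A) := mul_le_mul_of_nonneg_left h6 hc
  have h10 : (n : ℝ) * (ε * L r A) ≤ n * (δ / 2) := by
    refine mul_le_mul_of_nonneg_left ?_ hn0
    exact (mul_le_mul_of_nonneg_left h7 hε0.le).trans hεM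
  have h11 : (n : ℝ) * δ ≤ n * (L (some (-1)) A - c * L r A) :=
    mul_le_mul_of_nonneg_left (by rw [hδ]; exact h5) hn0
  nlinarith

/-- the additive monoid of vectors above those of finite sets -/
noncomputable def G (S : Finset (Option ℚ)) (c : ℝ) (hc : 0 ≤ c) : AddSubmonoid (↥S → ℝ) where
  carrier := {v | ∃ A : Finset (ℤ × ℤ), A.Nonempty ∧
    ∀ r : ↥S, c * L r.1 A - L (some (-1)) A ≤ v r}
  zero_mem' := by
    refine ⟨{(0, 0)}, singleton_nonempty _, fun r => ?_⟩
    unfold L proj; simp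
  add_mem' := by
    rintro v u ⟨A, hA, h1⟩ ⟨B, hB, h2⟩
    obtain ⟨E, hE, h3, h4⟩ := exists_comb hA hB
    refine ⟨E, hE, fun r => ?_⟩
    have h5 := h1 r
    have h6 := h2 r
    have h7 : c * L r.1 E ≤ c * (L r.1 A + L r.1 B) := mul_le_mul_of_nonneg_left (h3 r.1) hc
    simp only [Pi.add_apply]
    linarith

theorem product_of_max {S : Finset (Option ℚ)} {c : ℝ} (hc : 0 ≤ c) (h : MaxBound S c) :
    ∃ w : Option ℚ → ℝ, (∀ r, 0 ≤ w r) ∧ ∑ r ∈ S, w r = 1 ∧ ProductBound S c w := by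
  rw [maxBound_iff] at h
  obtain ⟨w, hw0, hw1, hw2⟩ := Pool.Agent.X163.Ak.Geo.weights (G S c hc) (by
    rintro v ⟨A, hA, hv⟩
    obtain ⟨r, hr, h1⟩ := h A hA
    exact ⟨⟨r, hr⟩, by have := hv ⟨r, hr⟩; simp only at this; linarith⟩)
  refine ⟨fun r => if hr : r ∈ S then w ⟨r, hr⟩ else 0, fun r => ?_, ?_, ?_⟩
  · by_cases hr : r ∈ S
    · simp only [hr, dite_true]; exact hw0 _
    · simp only [hr, dite_false]; exact le_rfl
  · rw [← sum_coe_sort S, ← hw1]
    refine sum_congr rfl fun r _ => ?_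
    simp
  · rw [productBound_iff]
    intro A hA
    have h1 := hw2 (fun r => c * L r.1 A - L (some (-1)) A) ⟨A, hA, fun r => le_rfl⟩
    have h2 : ∑ r ∈ S, (if hr : r ∈ S then w ⟨r, hr⟩ else 0) * L r A =
        ∑ r : ↥S, w r * L r.1 A := by
      rw [← sum_coe_sort S]
      refine sum_congr rfl fun r _ => ?_
      simp
    rw [h2]
    have h3 : ∑ r : ↥S, w r * (c * L r.1 A - L (some (-1)) A) =
        c * ∑ r : ↥S, w r * L r.1 A - L (some (-1)) A := by
      have : ∀ r : ↥S, w r * (c * L r.1 A - L (some (-1)) A) =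
        c * (w r * L r.1 A) - w r * L (some (-1)) A := fun r => by ring
      rw [sum_congr rfl fun r _ => this r, sum_sub_distrib, ← mul_sum, ← sum_mul, hw1, one_mul]
    rw [h3] at h1
    linarith

theorem max_of_product {S : Finset (Option ℚ)} {c : ℝ} (hc : 0 ≤ c) {w : Option ℚ → ℝ}
    (hw : ∀ r, 0 ≤ w r) (hw1 : ∑ r ∈ S, w r = 1) (h : ProductBound S c w) : MaxBound S c := by
  rw [productBound_iff] at h
  rw [maxBound_iff]
  intro A hA
  have hS : S.Nonempty := by
    rw [nonempty_iff_ne_empty]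
    rintro rfl
    simp at hw1
  obtain ⟨r₀, hr₀, h₀⟩ := exists_max_image S (fun r => L r A) hS
  refine ⟨r₀, hr₀, (h A hA).trans (mul_le_mul_of_nonneg_left ?_ hc)⟩
  calc ∑ r ∈ S, w r * L r A ≤ ∑ r ∈ S, w r * L r₀ A :=
        sum_le_sum fun r hr => mul_le_mul_of_nonneg_left (h₀ r hr) (hw r)
    _ = L r₀ A := by rw [← sum_mul, hw1, one_mul]

/-! ### slices -/

/-- logarithm of the size of a slice -/
noncomputable def ℓ (j : ℤ) (A : Finset (ℤ × ℤ)) : ℝ := Real.log ((slice j A).card : ℝ)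

theorem slice_pos {A : Finset (ℤ × ℤ)} (hA : A.Nonempty) (j : ℤ) :
    (1 : ℝ) ≤ (slice j A).card := by
  exact_mod_cast (hA.image _).card_pos

theorem diffs_pos {A : Finset (ℤ × ℤ)} (hA : A.Nonempty) : (1 : ℝ) ≤ (diffs A).card := by
  exact_mod_cast (hA.image _).card_pos

theorem ℓ_nonneg {A : Finset (ℤ × ℤ)} (hA : A.Nonempty) (j : ℤ) : 0 ≤ ℓ j A :=
  Real.log_nonneg (slice_pos hA j)

theorem sliceBound_iff {k : ℕ} {c : ℝ} (hk : 1 ≤ k) :
    SliceBound k c ↔ ∀ A : Finset (ℤ × ℤ), A.Nonempty →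
      k * Real.log ((diffs A).card : ℝ) ≤ c * ∑ j ∈ range k, ℓ j A := by
  unfold SliceBound ℓ
  have hk0 : (0 : ℝ) < k := by exact_mod_cast hk
  refine forall_congr' fun A => forall_congr' fun hA => ?_
  rw [le_rpow_iff (by linarith [diffs_pos hA])
    (prod_pos fun j _ => by linarith [slice_pos hA j]),
    Real.log_prod fun j _ => by linarith [slice_pos hA j], div_mul_eq_mul_div, le_div_iff₀ hk0,
    mul_comm]

/-- the parameter of a slope in the coordinates start and difference -/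
def tau (r : Option ℚ) : ℚ :=
  match r with
    | none => 0
    | some t => 1 / (1 + t)

/-- The change of coordinates `(a, d) ↦ (x, y)` with `y = a + s d`, `x - y = M d`. -/
def move (s M : ℤ) (A : Finset (ℤ × ℤ)) : Finset (ℤ × ℤ) :=
  A.image (fun p => (p.1 + s * p.2 + M * p.2, p.1 + s * p.2))

theorem card_move_neg {M : ℤ} (hM : M ≠ 0) (s : ℤ) (A : Finset (ℤ × ℤ)) :
    (proj (some (-1)) (move s M A)).card = (diffs A).card := by
  have h : proj (some (-1)) (move s M A) = (diffs A).image (fun d => ((M * d : ℤ) : ℚ)) := by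
    unfold proj move diffs
    rw [image_image, image_image]
    refine image_congr fun p _ => ?_
    simp only [Function.comp]
    push_cast
    ring
  rw [h]
  refine card_image_of_injective _ fun a b hab => ?_
  have h1 : M * a = M * b := by exact_mod_cast hab
  exact mul_left_cancel₀ hM h1

theorem card_move {M : ℤ} (s : ℤ) (A : Finset (ℤ × ℤ)) {r : Option ℚ}
    (hr : r ≠ some (-1)) {n : ℤ} (hn : tau r * M = n) :
    (proj r (move s M A)).card = (slice (s + n) A).card := by
  cases r with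
  | none =>
    have hn0 : n = 0 := by
      unfold tau at hn
      simp only [zero_mul] at hn
      exact_mod_cast hn.symm
    subst hn0
    have h : proj none (move s M A) = (slice (s + 0) A).image (fun x : ℤ => (x : ℚ)) := by
      unfold proj move slice
      rw [image_image, image_image]
      refine image_congr fun p _ => ?_
      simp only [Function.comp, add_zero]
    rw [h]
    exact card_image_of_injective _ Int.cast_injective
  | some t =>
    have ht : 1 + t ≠ 0 := by
      intro h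
      apply hr
      congr 1
      linarith
    have h : proj (some t) (move s M A) =
        (slice (s + n) A).image (fun x : ℤ => (1 + t) * (x : ℚ)) := by
      unfold proj move slice
      rw [image_image, image_image]
      refine image_congr fun p _ => ?_
      simp only [Function.comp]
      push_cast
      rw [← hn]
      unfold tau
      simp only
      field_simp
      ring
    rw [h]
    refine card_image_of_injective _ fun a b hab => ?_
    have h1 := mul_left_cancel₀ ht hab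
    exact_mod_cast h1

theorem move_nonempty {A : Finset (ℤ × ℤ)} (hA : A.Nonempty) (s M : ℤ) :
    (move s M A).Nonempty := hA.image _

/-- clearing denominators -/
theorem exists_scale (S : Finset (Option ℚ)) : ∃ M : ℤ, M ≠ 0 ∧ ∀ r ∈ S, ∃ n : ℤ,
    tau r * M = n := by
  refine ⟨∏ r ∈ S, ((tau r).den : ℤ), prod_ne_zero_iff.2 fun r _ => by
    exact_mod_cast (tau r).den_pos.ne', fun r hr => ?_⟩
  obtain ⟨m, hm⟩ := dvd_prod_of_mem (fun r => ((tau r).den : ℤ)) hr
  refine ⟨(tau r).num * m, ?_⟩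
  rw [hm]
  push_cast
  have h1 : tau r * ((tau r).den : ℚ) = (tau r).num := Rat.mul_den_eq_num _
  rw [← mul_assoc, h1]

theorem slice_of_max {S : Finset (Option ℚ)} (hS : some (-1) ∉ S) {c c' : ℝ} (hc : 0 ≤ c)
    (hcc : c < c') (h : MaxBound S c) : ∃ k₀ : ℕ, ∀ k, k₀ ≤ k → SliceBound k c' := by
  obtain ⟨w, hw0, hw1, hw⟩ := product_of_max hc h
  rw [productBound_iff] at hw
  obtain ⟨M, hM, hn⟩ := exists_scale S
  choose! n hn using hn
  obtain ⟨m, hm⟩ : ∃ m : ℕ, m = ∑ r ∈ S, (n r).natAbs := ⟨_, rfl⟩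
  have hm' : ∀ r ∈ S, (n r).natAbs ≤ m := fun r hr => by
    rw [hm]
    exact single_le_sum (f := fun r => (n r).natAbs) (fun i _ => Nat.zero_le _) hr
  obtain ⟨k₁, hk₁⟩ := exists_nat_gt (2 * m * c' / (c' - c))
  refine ⟨max k₁ (2 * m + 1), fun k hk => ?_⟩
  have hk1 : k₁ ≤ k := (le_max_left _ _).trans hk
  have hk2 : 2 * m + 1 ≤ k := (le_max_right _ _).trans hk
  have hkk : 2 * m * c' < k * (c' - c) := by
    have h1 : 2 * m * c' / (c' - c) < k := hk₁.trans_le (by exact_mod_cast hk1)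
    rwa [div_lt_iff₀ (by linarith)] at h1
  rw [sliceBound_iff (by omega)]
  intro A hA
  -- the inequality for a single shift
  have hone : ∀ s : ℤ, Real.log ((diffs A).card : ℝ) ≤ c * ∑ r ∈ S, w r * ℓ (s + n r) A := by
    intro s
    have h1 := hw (move s M A) (move_nonempty hA s M)
    have h2 : L (some (-1)) (move s M A) = Real.log ((diffs A).card : ℝ) := by
      unfold L; rw [card_move_neg hM]
    have h3 : ∑ r ∈ S, w r * L r (move s M A) = ∑ r ∈ S, w r * ℓ (s + n r) A := by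
      refine sum_congr rfl fun r hr => ?_
      unfold L ℓ
      rw [card_move s A (fun h => hS (h ▸ hr)) (hn r hr)]
    rwa [h2, h3] at h1
  obtain ⟨T, hT⟩ : ∃ x, x = ∑ j ∈ range k, ℓ j A := ⟨_, rfl⟩
  have hT0 : 0 ≤ T := by rw [hT]; exact sum_nonneg fun j _ => ℓ_nonneg hA j
  have hrange : ∑ j ∈ Ico (0 : ℤ) k, ℓ j A = T := by
    rw [hT]
    symm
    refine sum_bij (fun (j : ℕ) _ => (j : ℤ)) ?_ ?_ ?_ ?_
    · intro j hj
      rw [mem_range] at hj
      rw [mem_Ico]
      omega
    · intro a _ b _ hab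
      exact_mod_cast hab
    · intro b hb
      rw [mem_Ico] at hb
      exact ⟨b.toNat, by rw [mem_range]; omega, by omega⟩
    · intro j _; rfl
  have hshift : ∀ r ∈ S, ∑ s ∈ Ico (m : ℤ) (k - m), ℓ (s + n r) A ≤ T := by
    intro r hr
    have h1 : ∑ s ∈ Ico (m : ℤ) (k - m), ℓ (s + n r) A =
        ∑ j ∈ (Ico (m : ℤ) (k - m)).image (fun s => s + n r), ℓ j A := by
      rw [sum_image]
      intro a _ b _ hab
      simpa using hab
    rw [h1, ← hrange]
    refine sum_le_sum_of_subset_of_nonneg ?_ fun j _ _ => ℓ_nonneg hA j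
    intro j hj
    rw [mem_image] at hj
    obtain ⟨s, hs, rfl⟩ := hj
    rw [mem_Ico] at hs ⊢
    have := hm' r hr
    omega
  have hsum : ((k : ℝ) - 2 * m) * Real.log ((diffs A).card : ℝ) ≤ c * T := by
    have h1 : ∑ s ∈ Ico (m : ℤ) (k - m), Real.log ((diffs A).card : ℝ) ≤
        ∑ s ∈ Ico (m : ℤ) (k - m), c * ∑ r ∈ S, w r * ℓ (s + n r) A :=
      sum_le_sum fun s _ => hone s
    rw [sum_const, Int.card_Ico, nsmul_eq_mul] at h1
    have h2 : (((k : ℤ) - m - m).toNat : ℝ) = (k : ℝ) - 2 * m := by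
      have h3 : (((k : ℤ) - m - m).toNat : ℤ) = (k : ℤ) - m - m := Int.toNat_of_nonneg (by omega)
      have h4 : ((((k : ℤ) - m - m).toNat : ℤ) : ℝ) = (((k : ℤ) - m - m : ℤ) : ℝ) := by rw [h3]
      push_cast at h4
      linarith
    rw [h2] at h1
    refine h1.trans ?_
    rw [← mul_sum]
    refine mul_le_mul_of_nonneg_left ?_ hc
    rw [sum_comm]
    calc ∑ r ∈ S, ∑ s ∈ Ico (m : ℤ) (k - m), w r * ℓ (s + n r) A
        = ∑ r ∈ S, w r * ∑ s ∈ Ico (m : ℤ) (k - m), ℓ (s + n r) A :=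
          sum_congr rfl fun r _ => by rw [mul_sum]
      _ ≤ ∑ r ∈ S, w r * T :=
          sum_le_sum fun r hr => mul_le_mul_of_nonneg_left (hshift r hr) (hw0 r)
      _ = T := by rw [← sum_mul, hw1, one_mul]
  rw [← hT]
  have hkm : (0 : ℝ) < (k : ℝ) - 2 * m := by
    have : ((2 * m + 1 : ℕ) : ℝ) ≤ k := by exact_mod_cast hk2
    push_cast at this
    linarith
  have hk0 : (0 : ℝ) ≤ k := Nat.cast_nonneg _
  have h5 : k * (c * T) ≤ ((k : ℝ) - 2 * m) * (c' * T) := by
    have h6 : (k : ℝ) * c ≤ ((k : ℝ) - 2 * m) * c' := by linarith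
    nlinarith [mul_le_mul_of_nonneg_right h6 hT0]
  have h7 : ((k : ℝ) - 2 * m) * (k * Real.log ((diffs A).card : ℝ)) ≤
      ((k : ℝ) - 2 * m) * (c' * T) := by
    calc ((k : ℝ) - 2 * m) * (k * Real.log ((diffs A).card : ℝ))
        = k * (((k : ℝ) - 2 * m) * Real.log ((diffs A).card : ℝ)) := by ring
      _ ≤ k * (c * T) := mul_le_mul_of_nonneg_left hsum hk0
      _ ≤ _ := h5
  exact le_of_mul_le_mul_left h7 hkm

/-- the slope belonging to the slice with index `j` -/
def slope (j : ℕ) : Option ℚ := if j = 0 then none else some ((1 - j) / j)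

theorem slope_ne (j : ℕ) : slope j ≠ some (-1) := by
  unfold slope
  split_ifs with h
  · simp
  · intro h1
    rw [Option.some_inj] at h1
    have hj : (j : ℚ) ≠ 0 := by exact_mod_cast h
    rw [div_eq_iff hj] at h1
    linarith

/-- The change of coordinates `(x, y) ↦ (a, d) = (y, x - y)`. -/
def back (A : Finset (ℤ × ℤ)) : Finset (ℤ × ℤ) := A.image (fun p => (p.2, p.1 - p.2))

theorem card_diffs_back (A : Finset (ℤ × ℤ)) :
    (diffs (back A)).card = (proj (some (-1)) A).card := by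
  have h : proj (some (-1)) A = (diffs (back A)).image (fun x : ℤ => (x : ℚ)) := by
    unfold proj back diffs
    rw [image_image, image_image]
    refine image_congr fun p _ => ?_
    simp only [Function.comp]
    push_cast
    ring
  rw [h]
  exact (card_image_of_injective _ Int.cast_injective).symm

theorem card_slice_back (A : Finset (ℤ × ℤ)) (j : ℕ) :
    (slice j (back A)).card = (proj (slope j) A).card := by
  unfold slope
  split_ifs with h0
  · subst h0
    have h : proj none A = (slice (0 : ℕ) (back A)).image (fun x : ℤ => (x : ℚ)) := by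
      unfold proj back slice
      rw [image_image, image_image]
      refine image_congr fun p _ => ?_
      simp only [Function.comp]
      push_cast
      ring
    rw [h]
    exact (card_image_of_injective _ Int.cast_injective).symm
  · have hj : (j : ℚ) ≠ 0 := by exact_mod_cast h0
    have h : proj (some ((1 - j) / j)) A =
        (slice (j : ℤ) (back A)).image (fun x : ℤ => (x : ℚ) / j) := by
      unfold proj back slice
      rw [image_image, image_image]
      refine image_congr fun p _ => ?_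
      simp only [Function.comp]
      push_cast
      field_simp
      ring
    rw [h]
    refine (card_image_of_injective _ fun a b hab => ?_).symm
    have h1 : (a : ℚ) = b := by
      have := congrArg (fun z => z * (j : ℚ)) hab
      simpa [div_mul_cancel₀ _ hj] using this
    exact_mod_cast h1

theorem max_of_slice {k : ℕ} {c : ℝ} (hk : 1 ≤ k) (hc : 0 ≤ c) (h : SliceBound k c) :
    MaxBound ((range k).image slope) c := by
  rw [sliceBound_iff hk] at h
  rw [maxBound_iff]
  intro A hA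
  have h1 := h (back A) (hA.image _)
  obtain ⟨j₀, hj₀, h₀⟩ := exists_max_image (range k) (fun j => ℓ (j : ℕ) (back A))
    ⟨0, by rw [mem_range]; omega⟩
  refine ⟨slope j₀, mem_image_of_mem _ hj₀, ?_⟩
  have h2 : L (some (-1)) A = Real.log ((diffs (back A)).card : ℝ) := by
    unfold L; rw [card_diffs_back]
  have h3 : L (slope j₀) A = ℓ j₀ (back A) := by
    unfold L ℓ; rw [card_slice_back]
  rw [h2, h3]
  have hk0 : (0 : ℝ) < k := by exact_mod_cast hk
  have h4 : ∑ j ∈ range k, ℓ j (back A) ≤ k * ℓ j₀ (back A) := by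
    have := sum_le_card_nsmul (range k) (fun j => ℓ (j : ℕ) (back A)) (ℓ j₀ (back A)) h₀
    rwa [card_range, nsmul_eq_mul] at this
  have h5 : k * Real.log ((diffs (back A)).card : ℝ) ≤ k * (c * ℓ j₀ (back A)) := by
    calc k * Real.log ((diffs (back A)).card : ℝ) ≤ c * ∑ j ∈ range k, ℓ j (back A) := h1
      _ ≤ c * (k * ℓ j₀ (back A)) := mul_le_mul_of_nonneg_left h4 hc
      _ = _ := by ring
  exact le_of_mul_le_mul_left h5 hk0

/-- the maximum form of the frozen statement -/
theorem max_of_sd {S : Finset ℚ} {c : ℝ}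
    (h : ∀ A : Finset (ℤ × ℤ),
        ((A.image (fun p : ℤ × ℤ => (p.1 : ℚ) + (-1) * (p.2 : ℚ))).card : ℝ) ≤
          (max ((A.image (fun p : ℤ × ℤ => (p.2 : ℚ))).card : ℝ)
              ((S.sup (fun r : ℚ =>
                  (A.image (fun p : ℤ × ℤ => (p.1 : ℚ) + r * (p.2 : ℚ))).card) : ℕ) : ℝ)) ^ c) :
    MaxBound (insertNone S) c := by
  intro A hA
  have h1 := h A
  change ((proj (some (-1)) A).card : ℝ) ≤ (max ((proj none A).card : ℝ)
    ((S.sup (fun r : ℚ => (proj (some r) A).card) : ℕ) : ℝ)) ^ c at h1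
  rcases max_choice ((proj none A).card : ℝ)
    ((S.sup (fun r : ℚ => (proj (some r) A).card) : ℕ) : ℝ) with h2 | h2
  · rw [h2] at h1
    exact ⟨none, by simp, h1⟩
  · rcases S.eq_empty_or_nonempty with hS | hS
    · subst hS
      simp only [sup_empty, Nat.bot_eq_zero, Nat.cast_zero] at h2
      have := le_max_left ((proj none A).card : ℝ) 0
      rw [h2] at this
      have := one_le hA none
      linarith
    · obtain ⟨r, hr, h3⟩ := exists_mem_eq_sup S hS (fun r : ℚ => (proj (some r) A).card)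
      rw [h2, h3] at h1
      exact ⟨some r, by simpa using hr, h1⟩

theorem sd_of_max {S : Finset (Option ℚ)} {c : ℝ} (hc : 0 ≤ c) (h : MaxBound S c)
    (A : Finset (ℤ × ℤ)) :
    ((A.image (fun p : ℤ × ℤ => (p.1 : ℚ) + (-1) * (p.2 : ℚ))).card : ℝ) ≤
      (max ((A.image (fun p : ℤ × ℤ => (p.2 : ℚ))).card : ℝ)
          (((eraseNone S).sup (fun r : ℚ =>
              (A.image (fun p : ℤ × ℤ => (p.1 : ℚ) + r * (p.2 : ℚ))).card) : ℕ) : ℝ)) ^ c := by
  rcases A.eq_empty_or_nonempty with hA | hA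
  · subst hA
    simp only [image_empty, card_empty, Nat.cast_zero]
    exact Real.rpow_nonneg (le_max_left _ _) _
  obtain ⟨r, hr, h1⟩ := h A hA
  refine h1.trans (Real.rpow_le_rpow (Nat.cast_nonneg _) ?_ hc)
  cases r with
  | none => exact le_max_left _ _
  | some t =>
    refine le_trans ?_ (le_max_right _ _)
    have h2 : (proj (some t) A).card ≤ (eraseNone S).sup (fun r : ℚ => (proj (some r) A).card) :=
      le_sup (f := fun r : ℚ => (proj (some r) A).card) (by simpa using hr)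
    exact_mod_cast h2

end Aux

open Aux

theorem result :
    (∀ (S : Finset (Option ℚ)) (c : ℝ), 0 ≤ c →
      (WeakBound S c ↔ MaxBound S c) ∧
      (MaxBound S c ↔ ∃ w : Option ℚ → ℝ,
        (∀ r, 0 ≤ w r) ∧ ∑ r ∈ S, w r = 1 ∧ ProductBound S c w)) ∧
    (∀ (S : Finset (Option ℚ)) (c c' : ℝ), some (-1) ∉ S → 0 ≤ c → c < c' → MaxBound S c →
      ∃ k₀ : ℕ, ∀ k, k₀ ≤ k → SliceBound k c') ∧
    (ArithmeticKakeya ↔ ∀ ε : ℝ, 0 < ε → ∃ k : ℕ, 1 ≤ k ∧ SliceBound k (1 + ε)) ∧
    (∀ c : ℝ, 3 / 2 ≤ c → 0 < 7 * c ^ 4 - 6 * c ^ 3 - 21 * c ^ 2 + 24 * c - 8 →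
      ∃ k₀ : ℕ, ∀ k, k₀ ≤ k → SliceBound k c) := by
  refine ⟨fun S c hc => ⟨⟨max_of_weak hc, weak_of_max⟩, product_of_max hc, ?_⟩,
    fun S c c' hS hc hcc h => slice_of_max hS hc hcc h, ⟨?_, ?_⟩, ?_⟩
  · rintro ⟨w, hw0, hw1, hw⟩
    exact max_of_product hc hw0 hw1 hw
  · intro h ε hε
    obtain ⟨S, hS, h1⟩ := h (ε / 2) (by linarith)
    obtain ⟨k₀, hk⟩ := slice_of_max (S := insertNone S) (by simpa using hS)
      (by linarith : (0 : ℝ) ≤ 1 + ε / 2) (by linarith : 1 + ε / 2 < 1 + ε) (max_of_sd h1)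
    exact ⟨max k₀ 1, le_max_right _ _, hk _ (le_max_left _ _)⟩
  · intro h ε hε
    obtain ⟨k, hk, h1⟩ := h ε hε
    have h2 := max_of_slice hk (by linarith) h1
    refine ⟨eraseNone ((range k).image slope), ?_, fun A => sd_of_max (by linarith) h2 A⟩
    rw [mem_eraseNone, mem_image]
    rintro ⟨j, -, hj⟩
    exact slope_ne j hj
  · intro c hc hq
    have hcont : Continuous fun x : ℝ => 7 * x ^ 4 - 6 * x ^ 3 - 21 * x ^ 2 + 24 * x - 8 := by
      fun_prop
    have hc2 : 3 / 2 < c := by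
      rcases eq_or_lt_of_le hc with h | h
      · subst h
        norm_num at hq
      · exact h
    have hev : ∀ᶠ x in nhds c, 0 < 7 * x ^ 4 - 6 * x ^ 3 - 21 * x ^ 2 + 24 * x - 8 :=
      hcont.continuousAt.eventually (lt_mem_nhds hq)
    obtain ⟨δ, hδ, hball⟩ := Metric.eventually_nhds_iff.1 hev
    obtain ⟨x, hx⟩ : ∃ x, x = max (3 / 2) (c - δ / 2) := ⟨_, rfl⟩
    have hx1 : 3 / 2 ≤ x := by rw [hx]; exact le_max_left _ _
    have hx2 : c - δ / 2 ≤ x := by rw [hx]; exact le_max_right _ _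
    have hx3 : x < c := by rw [hx]; exact max_lt hc2 (by linarith)
    have hqx : 0 < 7 * x ^ 4 - 6 * x ^ 3 - 21 * x ^ 2 + 24 * x - 8 := by
      refine hball (y := x) ?_
      rw [Real.dist_eq, abs_lt]
      constructor <;> linarith
    obtain ⟨S, hS, h1⟩ := Pool.Agent.X163.Ak.sdc_root hx1 hqx
    exact slice_of_max (S := insertNone S) (by simpa using hS) (by linarith) hx3 (max_of_sd h1)

end Pool.Agent.Results.MP_169869_co.GeometricMeans
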